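import Pool.Agent.Run7.h207.GC.Iface

/-!
# Project GC of helper207 (MP_23961f_co): the pieces SUF, EXT, SWN, SFIRST (helper227)
-/

set_option autoImplicit false

namespace Pool.Agent.Run7.h227.GC

open Pool.Agent.Run7.h207.GC Finset Matrix

section basic

variable {V : Type} {H : SimpleGraph V} {d : ℕ}

theorem ne_of_notMem {i j : V} {l : List V} (hi : i ∉ l) (hj : j ∈ l) : j ≠ i := by
  intro h
  rw [h] at hj
  exact hi hj

theorem LI_congr {w w' : V → Fin d → ℝ} {S : Finset V} (h : ∀ j ∈ S, w' j = w j)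
    (hw : LI w S) : LI w' S :=
  LinearIndepOn.congr hw (fun j hj => (h j hj).symm)

theorem LI_nil (w : V → Fin d → ℝ) : LI w (∅ : Finset V) := by
  unfold LI
  rw [Finset.coe_empty]
  exact linearIndepOn_empty ℝ w

theorem LI_mono {w : V → Fin d → ℝ} {S T : Finset V} (h : S ⊆ T) (hw : LI w T) : LI w S :=
  LinearIndepOn.mono hw (Finset.coe_subset.2 h)

theorem LIC_congr {w w' : V → Fin d → ℝ} : ∀ {l : List V}, (∀ j ∈ l, w' j = w j) →
    LIC H w l → LIC H w' l
  | [], _, _ => trivial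
  | _ :: _, h, hw =>
    ⟨LIC_congr (fun j hj => h j (List.mem_cons_of_mem _ hj)) hw.1,
      LI_congr (fun j hj => h j (List.mem_cons_of_mem _ (mem_nbl.1 hj).1)) hw.2⟩

theorem Orth_perm {w : V → Fin d → ℝ} {l l' : List V} (h : ∀ j, j ∈ l' → j ∈ l)
    (hw : Orth H w l) : Orth H w l' :=
  fun i hi j hj hij => hw i (h i hi) j (h j hj) hij

theorem Reg_tail {w : V → Fin d → ℝ} {i : V} {l : List V} (h : Reg H w (i :: l)) :
    Reg H w l :=
  ⟨Orth_perm (fun _ hj => List.mem_cons_of_mem _ hj) h.1, h.2.1⟩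

theorem reg_mem_im {Im : List V → Set (V → Fin d → ℝ)} (hI : IsIm H d Im)
    {w : V → Fin d → ℝ} : ∀ {l : List V}, l.Nodup → Reg H w l → w ∈ Im l
  | [], _, _ => hI.nil w
  | i :: l, hn, hw => by
    have hn' := List.nodup_cons.1 hn
    refine hI.step i l w hn'.1 (reg_mem_im hI hn'.2 (Reg_tail hw)) hw.2.2 ?_
    intro j hj hij
    exact hw.1 i List.mem_cons_self j (List.mem_cons_of_mem _ hj) hij

theorem nbl_perm {l l' : List V} (h : ∀ j, j ∈ l ↔ j ∈ l') (i : V) :
    nbl H l i = nbl H l' i := by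
  ext j
  rw [mem_nbl, mem_nbl, h j]

/-- replace the vector of a new vertex by zero -/
theorem zero_mem_im {Im : List V → Set (V → Fin d → ℝ)} (hI : IsIm H d Im)
    [DecidableEq V] {w : V → Fin d → ℝ} {i : V} {l : List V} (hi : i ∉ l) (hw : w ∈ Im l) :
    Function.update w i 0 ∈ Im (i :: l) := by
  refine hI.zero i l _ hi (hI.congr l w _ hw ?_) (Function.update_self _ _ _)
  intro j hj
  exact Function.update_of_ne (ne_of_notMem hi hj) _ _

theorem Orth_zero [DecidableEq V] {w : V → Fin d → ℝ} {i : V} {l : List V}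
    (hw : Orth H w l) : Orth H (Function.update w i 0) (i :: l) := by
  intro a ha b hb hab
  by_cases h1 : a = i
  · rw [h1, Function.update_self, zero_dotProduct]
  · by_cases h2 : b = i
    · rw [h2, Function.update_self, dotProduct_zero]
    · rw [Function.update_of_ne h1, Function.update_of_ne h2]
      exact hw a ((List.mem_cons.1 ha).resolve_left h1) b
        ((List.mem_cons.1 hb).resolve_left h2) hab

end basic

/-- **SUF** -/
theorem t_SUF (hIM : J_IM) (hPC : J_PC) : J_SUF := by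
  classical
  intro V H d i l l' hn hi hp hcom hex
  obtain ⟨Im, hI⟩ := hIM V H d
  obtain ⟨w₀, h0, h0'⟩ := hcom
  obtain ⟨w₁, h1⟩ := hex
  have hi' : i ∉ l' := fun h => hi (hp.mem_iff.2 h)
  obtain ⟨w, hw, hw1, hw2⟩ := hI.irr (i :: l) (fun w => LIC H w (i :: l)) (fun w => LIC H w l')
    ((hPC V d).2.1 H (i :: l)) ((hPC V d).2.1 H l')
    ⟨w₁, reg_mem_im hI (List.nodup_cons.2 ⟨hi, hn⟩) h1, h1.2⟩
    ⟨Function.update w₀ i 0, zero_mem_im hI hi (reg_mem_im hI hn h0),
      LIC_congr (fun j hj => Function.update_of_ne (ne_of_notMem hi' hj) _ _) h0'.2⟩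
  have ho : Orth H w (i :: l) := hI.orth _ w (List.nodup_cons.2 ⟨hi, hn⟩) hw
  refine ⟨w, ⟨ho, hw1⟩, ⟨Orth_perm (fun j hj => ?_) ho, hw2, ?_⟩⟩
  · rcases List.mem_cons.1 hj with h | h
    · exact h ▸ List.mem_cons_self
    · exact List.mem_cons_of_mem _ (hp.mem_iff.2 h)
  · rw [nbl_perm (l' := l) (fun j => hp.symm.mem_iff)]
    exact hw1.2

/-- **EXT** -/
theorem t_EXT : J_EXT := by
  classical
  intro V H d i l hi hex
  obtain ⟨w, hw, hw'⟩ := hex
  have hne : ∀ j ∈ l, Function.update w i 0 j = w j := fun j hj =>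
    Function.update_of_ne (ne_of_notMem hi hj) _ _
  exact ⟨Function.update w i 0, Orth_zero hw.1, LIC_congr hne hw.2,
    LI_congr (fun j hj => hne j (mem_nbl.1 hj).1) hw'⟩

/-- **SWN** -/
theorem t_SWN (hIM : J_IM) (hPC : J_PC) : J_SWN := by
  classical
  intro V H d x y l hxy hadj hx hy hn hex hey
  obtain ⟨Im, hI⟩ := hIM V H d
  obtain ⟨w₁, h1, h1'⟩ := hex
  obtain ⟨w₂, h2, h2'⟩ := hey
  obtain ⟨w, hw, ⟨hw1, hwx⟩, hwy⟩ := hI.irr l (fun w => LIC H w l ∧ LI w (nbl H l x))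
    (fun w => LI w (nbl H l y))
    ((hPC V d).2.2.1 _ _ ((hPC V d).2.1 H l) ((hPC V d).1 (nbl H l x)))
    ((hPC V d).1 (nbl H l y))
    ⟨w₁, reg_mem_im hI hn h1, h1.2, h1'⟩ ⟨w₂, reg_mem_im hI hn h2, h2'⟩
  have ho : Orth H w l := hI.orth l w hn hw
  set w' : V → Fin d → ℝ := Function.update (Function.update w x 0) y 0 with hw'
  have hne : ∀ j ∈ l, w' j = w j := fun j hj => by
    rw [hw', Function.update_of_ne (ne_of_notMem hy hj),
      Function.update_of_ne (ne_of_notMem hx hj)]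
  have hO : Orth H w' (y :: x :: l) := Orth_zero (Orth_zero ho)
  have hO' : Orth H w' (x :: y :: l) := by
    refine Orth_perm (fun j hj => ?_) hO
    simp only [List.mem_cons] at hj ⊢
    tauto
  have hL : LIC H w' l := LIC_congr hne hw1
  have hLx : LI w' (nbl H l x) := LI_congr (fun j hj => hne j (mem_nbl.1 hj).1) hwx
  have hLy : LI w' (nbl H l y) := LI_congr (fun j hj => hne j (mem_nbl.1 hj).1) hwy
  have e1 : nbl H (x :: l) y = nbl H l y := by
    ext j
    rw [mem_nbl, mem_nbl, List.mem_cons]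
    constructor
    · rintro ⟨h | h, h'⟩
      · exact absurd (h ▸ h').symm hadj
      · exact ⟨h, h'⟩
    · rintro ⟨h, h'⟩
      exact ⟨Or.inr h, h'⟩
  have e2 : nbl H (y :: l) x = nbl H l x := by
    ext j
    rw [mem_nbl, mem_nbl, List.mem_cons]
    constructor
    · rintro ⟨h | h, h'⟩
      · exact absurd (h ▸ h') hadj
      · exact ⟨h, h'⟩
    · rintro ⟨h, h'⟩
      exact ⟨Or.inr h, h'⟩
  refine ⟨w', ⟨hO, ⟨hL, hLx⟩, ?_⟩, ⟨hO', ⟨hL, hLy⟩, ?_⟩⟩
  · rw [e1]; exact hLy
  · rw [e2]; exact hLx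

/-- the standard basis vectors on the members of a list -/
theorem std_li {V : Type} {d : ℕ} {s : List V} (hd : s.length ≤ d) [DecidableEq V] :
    ∃ w : V → Fin d → ℝ, LI w s.toFinset ∧ (∀ i ∈ s, ∀ j ∈ s, i ≠ j → w i ⬝ᵥ w j = 0) ∧
      ∀ i, i ∉ s → w i = 0 := by
  have hlt : ∀ i ∈ s, s.idxOf i < d := fun i hi => (List.idxOf_lt_length_of_mem hi).trans_le hd
  let w : V → Fin d → ℝ := fun i => if h : i ∈ s then Pi.single ⟨s.idxOf i, hlt i h⟩ 1 else 0
  refine ⟨w, ?_, ?_, fun i hi => dif_neg hi⟩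
  · unfold LI LinearIndepOn
    have hinj : Function.Injective (fun i : ((s.toFinset : Finset V) : Set V) =>
        (⟨s.idxOf i.1, hlt i.1 (by simpa using i.2)⟩ : Fin d)) := by
      intro i j hij
      have h1 : s.idxOf i.1 = s.idxOf j.1 := congrArg Fin.val hij
      exact Subtype.ext ((List.idxOf_inj (by simpa using i.2)).1 h1)
    have h2 := (Pi.basisFun ℝ (Fin d)).linearIndependent.comp _ hinj
    convert h2 using 1
    funext i
    have hi : i.1 ∈ s := by simpa using i.2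
    show w i.1 = _
    simp only [w, dif_pos hi, Function.comp_apply, Pi.basisFun_apply]
  · intro i hi j hj hij
    simp only [w, dif_pos hi, dif_pos hj, single_dotProduct, one_mul]
    rw [Pi.single_apply, if_neg]
    intro h
    exact hij ((List.idxOf_inj hi).1 (congrArg Fin.val h))

/-- **SFIRST** -/
theorem t_SFIRST (hIM : J_IM) (hPC : J_PC) : J_SFIRST := by
  classical
  intro V H d l m s hn hp hcom hs
  obtain ⟨Im, hI⟩ := hIM V H d
  obtain ⟨w₁, h1, h1'⟩ := hcom
  obtain ⟨w₀, h0, h0', h0''⟩ := std_li (V := V) (d := d) hs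
  have hn' : (m ++ s).Nodup := hp.nodup_iff.1 hn
  have hlic : ∀ t : List V, (∀ i ∈ t, i ∈ s) → LIC H w₀ t := by
    intro t
    induction t with
    | nil => intro _; trivial
    | cons i t ih =>
      intro ht
      refine ⟨ih (fun j hj => ht j (List.mem_cons_of_mem _ hj)), LI_mono ?_ h0⟩
      intro j hj
      rw [List.mem_toFinset]
      exact ht j (List.mem_cons_of_mem _ (mem_nbl.1 hj).1)
  have hreg : Reg H w₀ s := ⟨fun i hi j hj hij => h0' i hi j hj hij.ne, hlic s fun _ h => h⟩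
  have hm : ∀ m : List V, (m ++ s).Nodup → w₀ ∈ Im (m ++ s) := by
    intro m
    induction m with
    | nil => intro h; exact reg_mem_im hI h hreg
    | cons i m ih =>
      intro h
      have h2 := List.nodup_cons.1 (show (i :: (m ++ s)).Nodup from h)
      exact hI.zero i (m ++ s) w₀ h2.1 (ih h2.2)
        (h0'' i (fun h3 => h2.1 (List.mem_append_right _ h3)))
  obtain ⟨w, hw, hw1, hw2, hw3⟩ := hI.irr (m ++ s) (fun w => LI w s.toFinset)
    (fun w => LIC H w (m ++ s) ∧ LIC H w l) ((hPC V d).1 s.toFinset)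
    ((hPC V d).2.2.1 _ _ ((hPC V d).2.1 H (m ++ s)) ((hPC V d).2.1 H l))
    ⟨w₀, hm m hn', h0⟩ ⟨w₁, reg_mem_im hI hn' h1', h1'.2, h1.2⟩
  refine ⟨w, ⟨Orth_perm (fun j hj => hp.mem_iff.1 hj) (hI.orth _ w hn' hw), hw3⟩, ?_⟩
  have e : ((s.toFinset : Finset V) : Set V) = {i | i ∈ s} := by
    ext i; simp
  unfold LI at hw1
  rwa [e] at hw1

end Pool.Agent.Run7.h227.GC
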